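import Pool.Agent.W533.LP.Stm2

set_option autoImplicit false

/-!
# Project LP, task D4: slopes and optimal paths in the box
-/

namespace Pool.Agent.W948.LP.D4

open Finset Pool.Agent.W533.LP

/-! ### slopes -/

open scoped Classical in
theorem two_chains (dc : DChain) {n : ℕ} (W : V n → ℕ) (v : V n) :
    ∃ A B : ℕ, ∀ l, Tc (Function.update W v l) = max A (B + l) := by
  set P : Finset (Finset (V n)) :=
    Finset.univ.filter (fun S : Finset (V n) => IsChain (· ≤ ·) (S : Set (V n))) with hP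
  have hT : ∀ W : V n → ℕ, Tc W = P.sup (fun S => ∑ v ∈ S, W v) := fun W => dc n W
  have hv : ({v} : Finset (V n)) ∈ P.filter (fun S => v ∈ S) := by
    simp [hP]
  refine ⟨(P.filter (fun S => v ∉ S)).sup (fun S => ∑ u ∈ S, W u),
    (P.filter (fun S => v ∈ S)).sup (fun S => ∑ u ∈ S.erase v, W u), fun l => ?_⟩
  have e1 : ∀ S : Finset (V n), v ∉ S → ∑ u ∈ S, Function.update W v l u = ∑ u ∈ S, W u := by
    intro S hS
    refine sum_congr rfl fun u hu => ?_
    rw [Function.update_of_ne]
    rintro rfl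
    exact hS hu
  have e2 : ∀ S : Finset (V n), v ∈ S →
      ∑ u ∈ S, Function.update W v l u = ∑ u ∈ S.erase v, W u + l := by
    intro S hS
    rw [← Finset.add_sum_erase S _ hS, Function.update_self, add_comm]
    congr 1
    refine sum_congr rfl fun u hu => ?_
    rw [Function.update_of_ne (Finset.ne_of_mem_erase hu)]
  rw [hT]
  apply le_antisymm
  · refine Finset.sup_le fun S hS => ?_
    by_cases h : v ∈ S
    · rw [e2 S h]
      refine le_max_of_le_right (Nat.add_le_add_right ?_ _)
      exact Finset.le_sup (s := P.filter (fun S => v ∈ S)) (f := fun S => ∑ u ∈ S.erase v, W u)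
        (mem_filter.2 ⟨hS, h⟩)
    · rw [e1 S h]
      refine le_max_of_le_left ?_
      exact Finset.le_sup (s := P.filter (fun S => v ∉ S)) (f := fun S => ∑ u ∈ S, W u)
        (mem_filter.2 ⟨hS, h⟩)
  · refine max_le ?_ ?_
    · refine Finset.sup_le fun S hS => ?_
      obtain ⟨h1, h2⟩ := mem_filter.1 hS
      rw [← e1 S h2]
      exact Finset.le_sup (f := fun S => ∑ u ∈ S, Function.update W v l u) h1
    · obtain ⟨S, hS, h⟩ := Finset.exists_mem_eq_sup (P.filter (fun S => v ∈ S)) ⟨_, hv⟩
        (fun S => ∑ u ∈ S.erase v, W u)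
      obtain ⟨h1, h2⟩ := mem_filter.1 hS
      rw [h]
      show ∑ u ∈ S.erase v, W u + l ≤ _
      rw [← e2 S h2]
      exact Finset.le_sup (f := fun S => ∑ u ∈ S, Function.update W v l u) h1

theorem dSl (dc : DChain) : DSl := by
  intro n W v l
  obtain ⟨A, B, h⟩ := two_chains dc W v
  have h1 : ∀ l, (sl W v l = 0 ∧ B + l + 1 ≤ A) ∨ (sl W v l = 1 ∧ A ≤ B + l) := by
    intro l
    unfold sl
    rw [h, h]
    rcases Nat.lt_or_ge (B + l) A with h1 | h1
    · left
      rw [max_eq_left (show B + (l + 1) ≤ A by omega), max_eq_left (show B + l ≤ A by omega)]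
      exact ⟨by ring, by omega⟩
    · right
      rw [max_eq_right (show A ≤ B + (l + 1) by omega), max_eq_right (show A ≤ B + l by omega)]
      refine ⟨by push_cast; ring, h1⟩
  refine ⟨(h1 l).imp And.left And.left, ?_⟩
  rcases h1 l with h2 | h2
  · rcases h1 (l + 1) with h3 | h3
    · rw [h2.1, h3.1]
    · rw [h2.1, h3.1]; norm_num
  · rcases h1 (l + 1) with h3 | h3
    · exfalso
      have h4 := h2.2
      have h5 := h3.2
      omega
    · rw [h2.1, h3.1]

/-! ### paths -/

theorem G_zero_right (W : ℕ → ℕ → ℕ) : ∀ m, G zero zero W m 0 = 0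
  | 0 => by simp [G]
  | m + 1 => by
    rw [G, G_zero_right W m]
    rfl

theorem G_zero_left (W : ℕ → ℕ → ℕ) : ∀ m, G zero zero W 0 m = 0
  | 0 => by simp [G]
  | m + 1 => by
    rw [G, G_zero_left W m]
    rfl

theorem T_succ (W : ℕ → ℕ → ℕ) (i j : ℕ) :
    T W (i + 1) (j + 1) = max (T W i (j + 1)) (T W (i + 1) j) + W i j := by
  unfold T
  rw [G]

theorem pred (W : ℕ → ℕ → ℕ) : ∀ i j : ℕ, 0 < i + j → ∃ i' j', i' + j' + 1 = i + j ∧ i' ≤ i ∧
    j' ≤ j ∧ T W (i + 1) (j + 1) = T W (i' + 1) (j' + 1) + W i j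
  | 0, 0, h => absurd h (lt_irrefl 0)
  | i + 1, 0, _ => by
    refine ⟨i, 0, by omega, by omega, le_rfl, ?_⟩
    rw [T_succ W (i + 1) 0]
    have : T W (i + 1 + 1) 0 = 0 := G_zero_right W _
    rw [this, max_eq_left (Nat.zero_le _)]
  | 0, j + 1, _ => by
    refine ⟨0, j, by omega, le_rfl, by omega, ?_⟩
    rw [T_succ W 0 (j + 1)]
    have : T W 0 (j + 1 + 1) = 0 := G_zero_left W _
    rw [this, max_eq_right (Nat.zero_le _)]
  | i + 1, j + 1, _ => by
    rcases le_total (T W (i + 1) (j + 1 + 1)) (T W (i + 1 + 1) (j + 1)) with h | h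
    · refine ⟨i + 1, j, by omega, le_rfl, by omega, ?_⟩
      rw [T_succ W (i + 1) (j + 1), max_eq_right h]
    · refine ⟨i, j + 1, by omega, by omega, le_rfl, ?_⟩
      rw [T_succ W (i + 1) (j + 1), max_eq_left h]

theorem exists_path (W : ℕ → ℕ → ℕ) : ∀ s i j : ℕ, i + j = s → ∃ π : ℕ → ℕ × ℕ,
    (∀ k ≤ s, (π k).1 + (π k).2 = k) ∧ (∀ k l, k ≤ l → l ≤ s → π k ≤ π l) ∧ π s = (i, j) ∧
    ∑ k ∈ range (s + 1), W (π k).1 (π k).2 = T W (i + 1) (j + 1) := by
  intro s
  induction s with
  | zero =>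
    intro i j hij
    obtain rfl : i = 0 := by omega
    obtain rfl : j = 0 := by omega
    refine ⟨fun _ => (0, 0), fun k hk => by simp; omega, fun _ _ _ _ => le_rfl, rfl, ?_⟩
    rw [T_succ W 0 0]
    have h1 : T W 0 (0 + 1) = 0 := G_zero_left W _
    have h2 : T W (0 + 1) 0 = 0 := G_zero_right W _
    rw [h1, h2]
    simp
  | succ s ih =>
    intro i j hij
    obtain ⟨i', j', h1, h2, h3, h4⟩ := pred W i j (by omega)
    obtain ⟨π, h5, h6, h7, h8⟩ := ih i' j' (by omega)
    refine ⟨fun k => if k ≤ s then π k else (i, j), ?_, ?_, ?_, ?_⟩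
    · intro k hk
      by_cases h : k ≤ s
      · simp only [if_pos h]
        exact h5 k h
      · simp only [if_neg h]
        omega
    · intro k l hkl hl
      by_cases h : l ≤ s
      · simp only [if_pos h, if_pos (hkl.trans h)]
        exact h6 k l hkl h
      · by_cases h' : k ≤ s
        · simp only [if_pos h', if_neg h]
          refine (h6 k s h' le_rfl).trans ?_
          rw [h7]
          exact ⟨h2, h3⟩
        · simp only [if_neg h, if_neg h']
          exact le_rfl
    · simp
    · rw [sum_range_succ]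
      simp only [show ¬ (s + 1 ≤ s) by omega, if_false]
      rw [h4, ← h8]
      congr 1
      refine sum_congr rfl fun k hk => ?_
      rw [if_pos (by have := mem_range.1 hk; omega)]

/-- up-right paths in the box, one site on every level -/
structure IsPath {n : ℕ} (π : ℕ → V n) : Prop where
  lv : ∀ k, k + 1 < 2 * n → lev (π k) = k
  mn : ∀ k l, k ≤ l → l + 1 < 2 * n → π k ≤ π l

theorem exists_opt {n : ℕ} (hn : 1 ≤ n) (W : V n → ℕ) : ∃ π : ℕ → V n, IsPath π ∧
    Tc W = ∑ k ∈ range (2 * n - 1), W (π k) := by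
  obtain ⟨π, h1, h2, h3, h4⟩ := exists_path (ex W) ((n - 1) + (n - 1)) (n - 1) (n - 1) rfl
  have hb : ∀ k ≤ (n - 1) + (n - 1), (π k).1 ≤ n - 1 ∧ (π k).2 ≤ n - 1 := by
    intro k hk
    have := h2 k _ hk le_rfl
    rw [h3] at this
    exact this
  refine ⟨fun k => (⟨min (π k).1 (n - 1), by omega⟩, ⟨min (π k).2 (n - 1), by omega⟩),
    ⟨fun k hk => ?_, fun k l hkl hl => ?_⟩, ?_⟩
  · have h5 := hb k (by omega)
    have h6 := h1 k (by omega)
    show min (π k).1 (n - 1) + min (π k).2 (n - 1) = k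
    rw [min_eq_left h5.1, min_eq_left h5.2, h6]
  · have h5 := h2 k l hkl (by omega)
    exact ⟨min_le_min_right _ h5.1, min_le_min_right _ h5.2⟩
  · unfold Tc
    have e1 : n = n - 1 + 1 := by omega
    have e2 : 2 * n - 1 = n - 1 + (n - 1) + 1 := by omega
    have e3 : T (ex W) n n = T (ex W) (n - 1 + 1) (n - 1 + 1) := by rw [← e1]
    rw [e3, ← h4, e2]
    refine sum_congr rfl fun k hk => ?_
    have h5 := hb k (by have := mem_range.1 hk; omega)
    unfold ex
    rw [dif_pos ⟨by omega, by omega⟩]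
    congr 1
    ext
    · exact (min_eq_left h5.1).symm
    · exact (min_eq_left h5.2).symm

open scoped Classical in
theorem path_le (dc : DChain) {n : ℕ} {π : ℕ → V n} (h : IsPath π) (W : V n → ℕ) :
    ∑ k ∈ range (2 * n - 1), W (π k) ≤ Tc W := by
  have hT : Tc W = (Finset.univ.filter (fun S : Finset (V n) =>
    IsChain (· ≤ ·) (S : Set (V n)))).sup (fun S => ∑ v ∈ S, W v) := dc n W
  have e1 : ∑ v ∈ (range (2 * n - 1)).image π, W v = ∑ k ∈ range (2 * n - 1), W (π k) := by
    apply sum_image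
    intro k hk l hl hkl
    have h1 := h.lv k (by have := mem_range.1 (mem_coe.1 hk); omega)
    have h2 := h.lv l (by have := mem_range.1 (mem_coe.1 hl); omega)
    rw [← h1, ← h2]
    exact congrArg lev hkl
  rw [hT, ← e1]
  refine Finset.le_sup (f := fun S => ∑ v ∈ S, W v) (mem_filter.2 ⟨mem_univ _, ?_⟩)
  intro a ha b hb _
  obtain ⟨k, hk, rfl⟩ := mem_image.1 (mem_coe.1 ha)
  obtain ⟨l, hl, rfl⟩ := mem_image.1 (mem_coe.1 hb)
  have hk' := mem_range.1 hk
  have hl' := mem_range.1 hl
  rcases le_total k l with hkl | hkl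
  · exact Or.inl (h.mn k l hkl (by omega))
  · exact Or.inr (h.mn l k hkl (by omega))

theorem lev_lt {n : ℕ} (v : V n) : lev v + 1 < 2 * n := by
  have h1 := v.1.isLt
  have h2 := v.2.isLt
  unfold lev
  omega

theorem dGeod (dc : DChain) : DGeod := by
  intro n hn
  choose Γ hΓ hw using fun W : V n → ℕ => exists_opt hn W
  refine ⟨Γ, fun W k hk => (hΓ W).lv k hk, fun W k l hkl hl => (hΓ W).mn k l hkl hl, ?_, ?_⟩
  · intro W v hv
    have hl := lev_lt v
    have h1 : Tc W + 1 ≤ Tc (Function.update W v (W v + 1)) := by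
      refine le_trans ?_ (path_le dc (hΓ W) _)
      have h2 : Tc W + 1 = ∑ k ∈ range (2 * n - 1), (W (Γ W k) + if k = lev v then 1 else 0) := by
        rw [sum_add_distrib, ← hw W, sum_ite_eq' (range (2 * n - 1)) (lev v) (fun _ => 1),
          if_pos (mem_range.2 (by omega))]
      rw [h2]
      refine sum_le_sum fun k _ => ?_
      by_cases hk : k = lev v
      · rw [if_pos hk, hk, hv, Function.update_self]
      · rw [if_neg hk, add_zero, Function.update_apply]
        split_ifs with h3
        · rw [h3]; omega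
        · exact le_rfl
    have h2 := (dSl dc n W v (W v)).1
    rcases h2 with h2 | h2
    · exfalso
      unfold sl at h2
      rw [Function.update_eq_self] at h2
      have h3 : ((Tc W : ℕ) : ℝ) + 1 ≤ Tc (Function.update W v (W v + 1)) := by exact_mod_cast h1
      linarith
    · exact h2
  · intro W v h1 h2
    by_contra hc
    have hl := lev_lt v
    have h3 : Tc W ≤ Tc (Function.update W v (W v - 1)) := by
      refine le_trans (le_of_eq ?_) (path_le dc (hΓ W) _)
      rw [hw W]
      refine sum_congr rfl fun k hk => ?_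
      rw [Function.update_of_ne]
      intro h4
      have h5 := (hΓ W).lv k (by have := mem_range.1 hk; omega)
      rw [h4] at h5
      exact hc (by rw [h5]; exact h4)
    unfold sl at h2
    rw [Nat.sub_add_cancel h1, Function.update_eq_self] at h2
    have h4 : ((Tc W : ℕ) : ℝ) ≤ Tc (Function.update W v (W v - 1)) := by exact_mod_cast h3
    linarith

end Pool.Agent.W948.LP.D4
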